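import Pool.Agent.H26.QQ.Targets

/-!
# The exponents outside the dust (MP_7ecdd4_nt)
-/

set_option autoImplicit false

namespace Pool.Agent.H46.QQ

open Finset
open Pool.Agent.H29.FX Pool.Agent.H26.QQ
open Pool.Agent.H38.AE.Statement

theorem pf_EXO : T_EXO := by
  classical
  intro E m Q γ Y N hY hγ hm hN hr h
  have hN' : N.natAbs ≠ 0 := Int.natAbs_ne_zero.2 hN
  have hY0 : (0 : ℝ) < Y := by linarith
  obtain ⟨P, hP⟩ : ∃ P : Finset ℕ, P = N.natAbs.primeFactors.filter fun p => ¬ p ∣ Q :=
    ⟨_, rfl⟩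
  have e1 : exponents Q N = P.image fun p => N.natAbs.factorization p := by
    rw [hP]
    rfl
  have e2 : P = P.filter (fun p => ¬ p ^ E ∣ N.natAbs) ∪
      P.filter (fun p => p ^ E ∣ N.natAbs) := by
    ext p
    simp only [mem_union, mem_filter]
    tauto
  rw [e1, e2, image_union]
  refine (card_union_le _ _).trans (add_le_add ?_ ?_)
  · have h1 : (P.filter (fun p => ¬ p ^ E ∣ N.natAbs)).image
        (fun p => N.natAbs.factorization p) ⊆ range E := by
      intro a ha
      rw [mem_image] at ha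
      obtain ⟨p, hp, rfl⟩ := ha
      rw [mem_filter, hP, mem_filter] at hp
      rw [mem_range]
      by_contra hc
      exact hp.2 ((Nat.Prime.pow_dvd_iff_le_factorization
        (Nat.prime_of_mem_primeFactors hp.1.1) hN').2 (not_lt.1 hc))
    exact (card_le_card h1).trans (card_range E).le
  · refine card_image_le.trans ?_
    obtain ⟨R, hR⟩ : ∃ R : Finset ℕ, R = P.filter (fun p => p ^ E ∣ N.natAbs) := ⟨_, rfl⟩
    rw [← hR]
    by_contra hc
    push Not at hc
    have h1 : ∀ p ∈ R, Y ^ γ ≤ (p : ℝ) := by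
      intro p hp
      rw [hR, mem_filter, hP, mem_filter] at hp
      by_contra hlt
      push Not at hlt
      refine hp.1.2 (h p (Nat.prime_of_mem_primeFactors hp.1.1) hlt.le ?_)
      have h2 := Int.natCast_dvd.2 hp.2
      rwa [Nat.cast_pow] at h2
    have h3 : R ⊆ N.natAbs.primeFactors := by
      rw [hR, hP]
      exact (filter_subset _ _).trans (filter_subset _ _)
    have h4 : (Y ^ γ) ^ R.card ≤ ∏ p ∈ R, (p : ℝ) := by
      rw [← prod_const]
      exact prod_le_prod (fun p _ => by positivity) h1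
    have h5 : ∏ p ∈ R, (p : ℝ) ≤ radical N := by
      have h8 : ∏ p ∈ R, p ≤ radical N :=
        prod_le_prod_of_subset_of_one_le' h3 fun p hp _ =>
          (Nat.prime_of_mem_primeFactors hp).one_lt.le
      calc ∏ p ∈ R, (p : ℝ) = ((∏ p ∈ R, p : ℕ) : ℝ) := by rw [Nat.cast_prod]
        _ ≤ radical N := Nat.cast_le.2 h8
    have h6 : (Y ^ γ) ^ (m + 1) ≤ (Y ^ γ) ^ R.card :=
      pow_le_pow_right₀ (Real.one_le_rpow (by linarith) hγ.le) hc
    have h7 : Y < (Y ^ γ) ^ (m + 1) := by
      rw [← Real.rpow_natCast (Y ^ γ), ← Real.rpow_mul hY0.le]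
      conv_lhs => rw [← Real.rpow_one Y]
      refine Real.rpow_lt_rpow_of_exponent_lt (by linarith) ?_
      push_cast
      nlinarith
    linarith

end Pool.Agent.H46.QQ
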